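import Pool.Agent.Helper73.LL.Goals

set_option autoImplicit false

namespace Pool.Agent.Helper39.LL

open Pool.Agent.Helper73.LL

/-- first consequences of the numerical context -/
theorem nc_basic {n : ℕ} {L ell e θ x : ℝ} {p r N q l r1 F1 F2 f : ℕ}
    (h : NC n L ell e θ x p r N q l r1 F1 F2 f) :
    0 < θ ∧ (N : ℝ) ≤ 8 * Real.exp (ell / 4) ∧ 1 ≤ r1 := by
  have hL := h.hL
  have hell := h.hell
  have hell2 := h.hell2
  have hN4 : (4:ℝ) ≤ N := by exact_mod_cast h.hN4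
  have hN2' : (N * p : ℝ) ≤ 4 * r := by exact_mod_cast h.hN2
  have hpr' : (p:ℝ) < r := by exact_mod_cast h.hpr
  have hθ0 : 0 < θ := by
    by_contra hc
    have h1 := h.hθ
    have h2 : θ * L ≤ 0 := mul_nonpos_of_nonpos_of_nonneg (by linarith) (by linarith)
    linarith
  have hNe : (N:ℝ) ≤ 8 * Real.exp (ell/4) := by
    have h1 : (N:ℝ) * Real.exp (L - ell) ≤ 8 * Real.exp (L - 3/4*ell) := by
      calc (N:ℝ) * Real.exp (L-ell) ≤ N * (2 * p) := by gcongr; exact h.hp2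
        _ = 2 * (N * p) := by ring
        _ ≤ 2 * (4 * r) := by gcongr
        _ = 8 * r := by ring
        _ ≤ 8 * Real.exp (L - 3/4*ell) := by gcongr; exact h.hr
    have h2 : Real.exp (L - 3/4*ell) = Real.exp (ell/4) * Real.exp (L-ell) := by
      rw [← Real.exp_add]; ring_nf
    rw [h2] at h1
    have h3 := Real.exp_pos (L-ell)
    have h4 : (N:ℝ) * Real.exp (L - ell) ≤ (8 * Real.exp (ell/4)) * Real.exp (L-ell) := by
      linarith
    exact le_of_mul_le_mul_right h4 h3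
  refine ⟨hθ0, hNe, ?_⟩
  by_contra hc
  have hr10 : r1 = 0 := by omega
  have hr2 := h.hr2
  rw [hr10] at hr2
  simp only [Nat.cast_zero, zero_add, mul_one] at hr2
  -- r * ell ≤ 64 * L * N
  have hr' : Real.exp (L - ell) / 2 ≤ r := by
    have := h.hp2
    linarith
  have h5 : Real.exp (L - ell) = Real.exp (ell/4) * Real.exp (L - 5/4*ell) := by
    rw [← Real.exp_add]; ring_nf
  have h6 : Real.exp (L/2) ≤ Real.exp (L - 5/4*ell) := by
    apply Real.exp_le_exp.2; linarith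
  have h7 : Real.exp (L/2) = Real.exp (L/4) * Real.exp (L/4) := by
    rw [← Real.exp_add]; ring_nf
  have h8 : L/4 + 1 ≤ Real.exp (L/4) := Real.add_one_le_exp _
  have h9 : (L/4) * (L/4) ≤ Real.exp (L - 5/4*ell) := by
    rw [h7] at h6
    refine le_trans ?_ h6
    gcongr <;> linarith
  have h10 := Real.exp_pos (ell/4)
  have h11 : Real.exp (ell/4) * ((L/4)*(L/4)) / 2 * 1000 ≤ r * ell := by
    have h12 : Real.exp (ell/4) * ((L/4)*(L/4)) / 2 ≤ r := by
      refine le_trans ?_ hr'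
      rw [h5]
      gcongr
    have h13 : 0 ≤ Real.exp (ell/4) * ((L/4)*(L/4)) / 2 := by positivity
    gcongr
  have h14 : 64 * L * N ≤ 64 * L * (8 * Real.exp (ell/4)) := by gcongr
  have h15 : Real.exp (ell/4) * (((L/4)*(L/4)) / 2 * 1000) ≤ Real.exp (ell/4) * (512 * L) := by
    linarith
  have h16 := le_of_mul_le_mul_left h15 h10
  have h17 : (10:ℝ)^8 * L ≤ L * L := mul_le_mul_of_nonneg_right hL (by linarith)
  norm_num at h17
  linarith

theorem xV_nonneg {x : ℝ} (hx : 0 ≤ x) : 0 ≤ xV x := by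
  unfold xV
  have := sq_nonneg (1 - x)
  linarith

theorem xV_le_one {x : ℝ} (hx : 0 ≤ x) (hx1 : x ≤ 1) : xV x ≤ 1 := by
  unfold xV
  nlinarith

theorem xV_gap {x : ℝ} (hx : 0 ≤ x) (hx1 : x ≤ 1) :
    (5/8) * (1-x) ≤ (1 - (1-x)/3) - xV x := by
  unfold xV
  nlinarith

/-- the threshold in logarithms -/
theorem logV {e x : ℝ} (hx : 0 ≤ x) (hx1 : x ≤ 1) (he1 : e ≤ 1/200) :
    -(xV x * (-Real.log (1 - e/2))) ≤ Real.log (1 - xV x * e / 2) := by
  have h1 := (strictConcaveOn_log_Ioi.concaveOn).2 (Set.mem_Ioi.2 (by norm_num : (0:ℝ) < 1))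
    (Set.mem_Ioi.2 (by linarith : (0:ℝ) < 1 - e/2))
    (by linarith [xV_le_one hx hx1] : (0:ℝ) ≤ 1 - xV x) (xV_nonneg hx) (by ring)
  simp only [smul_eq_mul, Real.log_one, mul_zero, zero_add, mul_one] at h1
  have h2 : 1 - xV x + xV x * (1 - e/2) = 1 - xV x * e / 2 := by ring
  rw [h2] at h1
  linarith

theorem eps_bd {e : ℝ} (he : 0 < e) (he1 : e ≤ 1/200) :
    0 ≤ -Real.log (1 - e/2) ∧ -Real.log (1 - e/2) ≤ 1/100 := by
  constructor
  · have : Real.log (1 - e/2) ≤ 0 := Real.log_nonpos (by linarith) (by linarith)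
    linarith
  · have h1 : 1 - (1 - e/2)⁻¹ ≤ Real.log (1 - e/2) :=
      Real.one_sub_inv_le_log_of_pos (by linarith)
    have h2 : (1 - e/2)⁻¹ ≤ 1 + 1/100 := by
      rw [inv_le_comm₀ (by linarith) (by norm_num)]
      norm_num
      linarith
    linarith

/-- per-letter inequality -/
theorem letter {x v ell L r1 ε W c8 : ℝ} (hx : 0 ≤ x) (hx1 : x ≤ 1) (hv0 : 0 ≤ v) (hv1 : v ≤ 1)
    (hgap : (5/8) * (1-x) ≤ (1 - (1-x)/3) - v) (hell : 1000 ≤ ell)
    (hr1 : 1 ≤ r1) (hε0 : 0 ≤ ε) (hε : ε ≤ 1/100) (hW : W = r1 * L) (hL : 0 ≤ L)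
    (hc8 : c8 ≤ 3) (hxL : 100 * ell ≤ (1 - x) * L) :
    (1 - (1-x)/3) * (ell/2 + 7 + 2 * r1 * (3/4*ell + 1) - 2 * W) ≤
        -(2 * v * (W + 2 * ε)) - c8 - (1-x)/8 * W - 2 := by
  have hW0 : 0 ≤ W := by rw [hW]; positivity
  have h9 : (1 - (1-x)/3) * (ell/2 + 7 + 2 * r1 * (3/4*ell + 1)) ≤
      1 * (ell/2 + 7 + 2 * r1 * (3/4*ell + 1)) :=
    mul_le_mul_of_nonneg_right (by linarith) (by positivity)
  have h12 : v * ε ≤ 1 * (1/100) := by gcongr
  have h13 : ((5/8) * (1-x)) * W ≤ ((1 - (1-x)/3) - v) * W :=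
    mul_le_mul_of_nonneg_right hgap hW0
  have h14 : 100 * ell * r1 ≤ (1-x) * W := by
    calc 100 * ell * r1 ≤ ((1 - x) * L) * r1 := by gcongr
      _ = (1-x) * W := by rw [hW]; ring
  have h18 : ell * 1 ≤ ell * r1 := mul_le_mul_of_nonneg_left hr1 (by linarith)
  have h19 : 1000 * r1 ≤ ell * r1 := mul_le_mul_of_nonneg_right hell (by linarith)
  have e1 : (1 - (1-x)/3) * (ell/2 + 7 + 2 * r1 * (3/4*ell + 1) - 2 * W) =
      (1 - (1-x)/3) * (ell/2 + 7 + 2 * r1 * (3/4*ell + 1)) - 2 * ((1 - (1-x)/3) * W) := by ring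
  have e2 : -(2 * v * (W + 2 * ε)) = -(2 * (v * W)) - 4 * (v * ε) := by ring
  have e3 : ((1 - (1-x)/3) - v) * W = (1 - (1-x)/3) * W - v * W := by ring
  have e4 : ((5/8) * (1-x)) * W = 5/8 * ((1-x) * W) := by ring
  have e5 : (1-x)/8 * W = ((1-x) * W)/8 := by ring
  have e6 : 2 * r1 * (3/4*ell + 1) = 3/2 * (ell * r1) + 2 * r1 := by ring
  rw [e1, e2, e5]
  rw [e3, e4] at h13
  rw [e6] at h9 ⊢
  linarith

/-- logarithms of the powers involved -/
theorem logs {n : ℕ} {L ell e θ x : ℝ} {p r N q l r1 F1 F2 f : ℕ}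
    (h : NC n L ell e θ x p r N q l r1 F1 F2 f) :
    L - 3/4*ell ≤ Real.log F2 ∧ Real.log (2 * N) ≤ ell/4 + 3 := by
  obtain ⟨hθ0, hNe, hr11⟩ := nc_basic h
  have hN4 : (4:ℝ) ≤ N := by exact_mod_cast h.hN4
  have hF2pos : (0:ℝ) < F2 := lt_of_lt_of_le (Real.exp_pos _) h.hF2
  constructor
  · rw [Real.le_log_iff_exp_le hF2pos]; exact h.hF2
  · have h1 : Real.log (2 * N) ≤ Real.log (16 * Real.exp (ell/4)) :=
      Real.log_le_log (by linarith) (by linarith)
    rw [Real.log_mul (by norm_num) (Real.exp_pos _).ne', Real.log_exp] at h1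
    have h2 : Real.log 16 = 4 * Real.log 2 := by
      rw [show (16:ℝ) = 2 ^ 4 by norm_num, Real.log_pow]; norm_num
    have h3 := Real.log_two_lt_d9
    linarith

/-- lower bound of the logarithm of the right side -/
theorem rhs_log {n : ℕ} {L ell e θ x : ℝ} {p r N q l r1 F1 F2 f : ℕ}
    (h : NC n L ell e θ x p r N q l r1 F1 F2 f) :
    0 < ((1 - xV x * e / 2) ^ (4 * l) / 8) ^ N *
      (Real.exp (-(θ ^ 2 * (r * ell) / 20000)) / 4) ∧
    N * (-(2 * xV x * (r1 * L + 2 * (-Real.log (1 - e/2)))) - 3 * Real.log 2) +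
        (-(1-x)/8 * (N * (r1 * L)) - 2 * Real.log 2) ≤
      Real.log (((1 - xV x * e / 2) ^ (4 * l) / 8) ^ N *
        (Real.exp (-(θ ^ 2 * (r * ell) / 20000)) / 4)) := by
  obtain ⟨hθ0, hNe, hr11⟩ := nc_basic h
  have hL := h.hL
  have hL0 : 0 < L := by linarith
  have hell := h.hell
  have he := h.he
  have he1 := h.he1
  have hθ1 := h.hθ1
  have hx := h.hx
  have hx1 := h.hx1
  have hx1' : x ≤ 1 := by linarith
  have hr11' : (1:ℝ) ≤ r1 := by exact_mod_cast hr11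
  have hl2 := h.hl2
  have hV0 := xV_nonneg hx
  have hV1 := xV_le_one hx hx1'
  have hlogV := logV hx hx1' he1
  obtain ⟨hε0, hε1⟩ := eps_bd he he1
  set ε : ℝ := -Real.log (1 - e/2) with hε
  have hpos1 : 0 < 1 - xV x * e / 2 := by
    have : xV x * e ≤ 1 * (1/200) := by gcongr
    linarith
  have hB : 0 < ((1 - xV x * e / 2) ^ (4 * l) / 8) ^ N *
      (Real.exp (-(θ ^ 2 * (r * ell) / 20000)) / 4) := by
    positivity
  refine ⟨hB, ?_⟩
  have hlog8 : Real.log 8 = 3 * Real.log 2 := by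
    rw [show (8:ℝ) = 2 ^ 3 by norm_num, Real.log_pow]; norm_num
  have hlog4 : Real.log 4 = 2 * Real.log 2 := by
    rw [show (4:ℝ) = 2 ^ 2 by norm_num, Real.log_pow]; norm_num
  have hlogB : Real.log (((1 - xV x * e / 2) ^ (4 * l) / 8) ^ N *
      (Real.exp (-(θ ^ 2 * (r * ell) / 20000)) / 4)) =
      N * (4 * l * Real.log (1 - xV x * e / 2) - Real.log 8) +
        (-(θ ^ 2 * (r * ell) / 20000) - Real.log 4) := by
    rw [Real.log_mul (by positivity) (by positivity), Real.log_pow,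
      Real.log_div (by positivity) (by norm_num), Real.log_pow,
      Real.log_div (Real.exp_pos _).ne' (by norm_num), Real.log_exp]
    push_cast
    ring
  rw [hlogB, hlog8, hlog4]
  have h3 : 4 * (l:ℝ) * (-(xV x * ε)) ≤ 4 * l * Real.log (1 - xV x * e / 2) :=
    mul_le_mul_of_nonneg_left hlogV (by positivity)
  have h4 : 2 * xV x * (2 * l * ε) ≤ 2 * xV x * (r1 * L + 2 * ε) :=
    mul_le_mul_of_nonneg_left hl2 (by linarith)
  have h5 : (N:ℝ) * (-(2 * xV x * (r1 * L + 2 * ε)) - 3 * Real.log 2) ≤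
      N * (4 * l * Real.log (1 - xV x * e / 2) - 3 * Real.log 2) := by
    apply mul_le_mul_of_nonneg_left _ (Nat.cast_nonneg N)
    have e1 : 4 * (l:ℝ) * (-(xV x * ε)) = -(2 * xV x * (2 * l * ε)) := by ring
    linarith
  have hr2 := h.hr2
  have hNW : (r:ℝ) * ell / 128 ≤ N * (r1 * L) := by
    have h5 : 64 * L * N * (r1 + 1) ≤ 64 * L * N * (2 * r1) := by
      apply mul_le_mul_of_nonneg_left _ (by positivity)
      linarith
    have e1 : 64 * L * N * (2 * r1) = 128 * (N * (r1 * L)) := by ring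
    linarith
  have h6 : θ ^ 2 * (r * ell) / 20000 ≤ (1-x)/8 * (N * (r1 * L)) := by
    have h7 : θ ^ 2 ≤ 1 - x := by
      have : θ ^ 2 ≤ θ * 1 := by rw [sq]; gcongr
      linarith
    have h8 : 0 ≤ (r:ℝ) * ell := by positivity
    calc θ ^ 2 * (r * ell) / 20000 ≤ (1-x) * (r * ell) / 20000 := by gcongr
      _ ≤ (1-x) * (r * ell) / 1024 := by
        have : 0 ≤ (1-x) * (r*ell) := mul_nonneg (by linarith) h8
        linarith
      _ = (1-x)/8 * (r * ell / 128) := by ring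
      _ ≤ (1-x)/8 * (N * (r1 * L)) := by
        apply mul_le_mul_of_nonneg_left hNW
        linarith
  have e7 : -(1-x)/8 * (N * (r1 * L)) = -((1-x)/8 * (N * (r1 * L))) := by ring
  rw [e7]
  linarith

theorem nb : S_NB := by
  intro n L ell e θ x p r N q l r1 F1 F2 f h
  obtain ⟨hθ0, hNe, hr11⟩ := nc_basic h
  obtain ⟨hlogF, hlogN⟩ := logs h
  obtain ⟨hB, hlogB⟩ := rhs_log h
  have hL := h.hL
  have hL0 : 0 < L := by linarith
  have hell := h.hell
  have hell2 := h.hell2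
  have he := h.he
  have he1 := h.he1
  have hθ := h.hθ
  have hθ1 := h.hθ1
  have hx := h.hx
  have hx1 := h.hx1
  have hx1' : x ≤ 1 := by linarith
  have hN4 : (4:ℝ) ≤ N := by exact_mod_cast h.hN4
  have hr11' : (1:ℝ) ≤ r1 := by exact_mod_cast hr11
  have hq1 := h.hq1
  have hF2pos : (0:ℝ) < F2 := lt_of_lt_of_le (Real.exp_pos _) h.hF2
  obtain ⟨hε0, hε1⟩ := eps_bd he he1
  set ε : ℝ := -Real.log (1 - e/2) with hε
  have hlog2 := Real.log_two_lt_d9
  have hlog20 := Real.log_two_gt_d9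
  have hqN : 2 * q ≤ N := by
    have h1 : (1 - x) * N ≤ 1 * N := mul_le_mul_of_nonneg_right (by linarith) (Nat.cast_nonneg N)
    have : (2 * q : ℝ) ≤ N := by linarith
    exact_mod_cast this
  have hm : ((N - 2 * q : ℕ) : ℝ) = N - 2 * q := by
    rw [Nat.cast_sub hqN]; push_cast; ring
  have hNm : N * (1 - (1-x)/3) ≤ ((N - 2 * q : ℕ) : ℝ) := by
    rw [hm]; linarith
  have hN0 : (0:ℝ) < 2 * N := by linarith
  have hA : 0 < 2 * (((2 * N : ℝ) ^ 2) * (2 * (2 / (F2 : ℝ)) ^ (2 * r1))) ^ (N - 2 * q) := by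
    positivity
  rw [← Real.log_le_log_iff hA hB]
  refine le_trans ?_ hlogB
  have hlogA : Real.log (2 * (((2 * N : ℝ) ^ 2) * (2 * (2 / (F2 : ℝ)) ^ (2 * r1))) ^ (N - 2 * q))
      = Real.log 2 + ((N - 2 * q : ℕ) : ℝ) * (2 * Real.log (2 * N) +
        (Real.log 2 + 2 * r1 * (Real.log 2 - Real.log F2))) := by
    have s1 : Real.log (2 * (2 / (F2 : ℝ)) ^ (2 * r1)) =
        Real.log 2 + 2 * r1 * (Real.log 2 - Real.log F2) := by
      rw [Real.log_mul (by norm_num) (by positivity), Real.log_pow,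
        Real.log_div (by norm_num) hF2pos.ne']
      push_cast
      ring
    have s2 : Real.log ((2 * N : ℝ) ^ 2) = 2 * Real.log (2 * N) := by
      rw [Real.log_pow]; norm_num
    rw [Real.log_mul (by norm_num) (by positivity), Real.log_pow,
      Real.log_mul (x := (2 * N : ℝ) ^ 2) (by positivity) (by positivity), s1, s2]
  rw [hlogA]
  -- the bracket
  have hW1 : 1 * L ≤ r1 * L := mul_le_mul_of_nonneg_right hr11' hL0.le
  have hbr : 2 * Real.log (2 * N) + (Real.log 2 + 2 * r1 * (Real.log 2 - Real.log F2)) ≤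
      ell/2 + 7 + 2 * r1 * (3/4*ell + 1) - 2 * (r1 * L) := by
    have h1 : 2 * (r1:ℝ) * (Real.log 2 - Real.log F2) ≤ 2 * r1 * (3/4*ell + 1 - L) :=
      mul_le_mul_of_nonneg_left (by linarith) (by positivity)
    have e1 : 2 * (r1:ℝ) * (3/4*ell + 1 - L) = 2 * r1 * (3/4*ell + 1) - 2 * (r1 * L) := by ring
    linarith
  have hr1W : (r1:ℝ) * (3/4*ell + 1) ≤ r1 * L / 4000 := by
    calc (r1:ℝ) * (3/4*ell + 1) ≤ r1 * (L/4000) :=
          mul_le_mul_of_nonneg_left (by linarith) (by positivity)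
      _ = r1 * L / 4000 := by ring
  have hneg : ell/2 + 7 + 2 * r1 * (3/4*ell + 1) - 2 * (r1 * L) ≤ 0 := by
    have e1 : 2 * (r1:ℝ) * (3/4*ell + 1) = 2 * (r1 * (3/4*ell + 1)) := by ring
    rw [e1]
    linarith
  have h1 : ((N - 2 * q : ℕ) : ℝ) * (2 * Real.log (2 * N) +
        (Real.log 2 + 2 * r1 * (Real.log 2 - Real.log F2))) ≤
      (N * (1 - (1-x)/3)) * (ell/2 + 7 + 2 * r1 * (3/4*ell + 1) - 2 * (r1 * L)) :=
    le_trans (mul_le_mul_of_nonneg_left hbr (Nat.cast_nonneg _))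
      (mul_le_mul_of_nonpos_right hNm hneg)
  have hxL : 100 * ell ≤ (1 - x) * L :=
    le_trans hθ (mul_le_mul_of_nonneg_right (by linarith) hL0.le)
  have h16 := letter (v := xV x) (c8 := 3 * Real.log 2) (ε := ε) (W := r1 * L) hx hx1'
    (xV_nonneg hx) (xV_le_one hx hx1') (xV_gap hx hx1') hell hr11' hε0 hε1 rfl hL0.le
    (by linarith) hxL
  have h20 : (N:ℝ) * ((1 - (1-x)/3) * (ell/2 + 7 + 2 * r1 * (3/4*ell + 1) - 2 * (r1 * L))) ≤
      N * (-(2 * xV x * (r1 * L + 2 * ε)) - 3 * Real.log 2 - (1-x)/8 * (r1 * L) - 2) :=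
    mul_le_mul_of_nonneg_left h16 (Nat.cast_nonneg N)
  have e1 : (N * (1 - (1-x)/3)) * (ell/2 + 7 + 2 * r1 * (3/4*ell + 1) - 2 * (r1 * L)) =
      (N:ℝ) * ((1 - (1-x)/3) * (ell/2 + 7 + 2 * r1 * (3/4*ell + 1) - 2 * (r1 * L))) := by ring
  have e2 : (N:ℝ) * (-(2 * xV x * (r1 * L + 2 * ε)) - 3 * Real.log 2 - (1-x)/8 * (r1 * L) - 2) =
      N * (-(2 * xV x * (r1 * L + 2 * ε)) - 3 * Real.log 2) +
        -(1-x)/8 * (N * (r1 * L)) - 2 * N := by ring
  rw [e1] at h1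
  rw [e2] at h20
  linarith

end Pool.Agent.Helper39.LL
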